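import Mathlib.Data.Sum.Order
import Mathlib.Order.Bounds.Basic
import Mathlib.Order.CompleteLattice.Basic
import Mathlib.Data.Nat.Basic
import Mathlib.Order.BoundedOrder.Basic
import Mathlib.Data.Countable.Basic

/-!
MP_31821e_co, Q1.  The poset of retractions of a lattice need not be a lattice, even for a
bounded countable chain: in the chain `ω + ω*` there are two retractions which have an upper
bound but no least upper bound (and two which have a lower bound but no greatest lower bound).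
-/

namespace Pool.Agent.Results.MP_31821e_co.NotALattice

universe u

/-- A retraction of a lattice: an order-preserving idempotent self-map. -/
def IsRetraction {L : Type u} [Lattice L] (r : L → L) : Prop :=
  (∀ x y : L, x ≤ y → r x ≤ r y) ∧ ∀ x : L, r (r x) = r x

/-- The set of all retractions of `L`; as a subtype of `L → L` it carries the pointwise order. -/
abbrev Retr (L : Type u) [Lattice L] : Type u := {r : L → L // IsRetraction r}

/-- sanity check: the order on `Retr L` is the pointwise one. -/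
theorem le_iff {L : Type u} [Lattice L] (r s : Retr L) :
    r ≤ s ↔ ∀ x : L, r.1 x ≤ s.1 x := Iff.rfl

/-- The chain `ω + ω*`. -/
abbrev C : Type := ℕ ⊕ₗ ℕᵒᵈ

def lo (n : ℕ) : C := toLex (Sum.inl n)
def hi (n : ℕ) : C := toLex (Sum.inr (OrderDual.toDual n))

theorem lo_le_lo {m n : ℕ} : lo m ≤ lo n ↔ m ≤ n := Sum.Lex.inl_le_inl_iff
theorem hi_le_hi {m n : ℕ} : hi m ≤ hi n ↔ n ≤ m :=
  Sum.Lex.inr_le_inr_iff.trans OrderDual.toDual_le_toDual
theorem lo_le_hi (m n : ℕ) : lo m ≤ hi n := Sum.Lex.inl_le_inr _ _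
theorem not_hi_le_lo (m n : ℕ) : ¬ hi m ≤ lo n := Sum.Lex.not_inr_le_inl

theorem casesC (x : C) : (∃ n, x = lo n) ∨ (∃ n, x = hi n) := by
  rcases x with n | n
  · exact Or.inl ⟨n, rfl⟩
  · exact Or.inr ⟨n, rfl⟩

/-- the chain `ω + ω*` is bounded -/
@[reducible] def boundedC : BoundedOrder C where
  bot := lo 0
  bot_le x := by
    rcases casesC x with ⟨n, rfl⟩ | ⟨n, rfl⟩
    · exact lo_le_lo.2 (Nat.zero_le n)
    · exact lo_le_hi _ _
  top := hi 0
  le_top x := by
    rcases casesC x with ⟨n, rfl⟩ | ⟨n, rfl⟩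
    · exact lo_le_hi _ _
    · exact hi_le_hi.2 (Nat.zero_le n)

/-- the chain `ω + ω*` is countable -/
theorem countableC : Countable C :=
  inferInstanceAs (Countable (ℕ ⊕ ℕ))

/-- apply `f` on the lower part -/
def onLo (f : ℕ → ℕ) : C → C
  | Sum.inl n => lo (f n)
  | Sum.inr n => toLex (Sum.inr n)

/-- apply `f` on the upper part -/
def onHi (f : ℕ → ℕ) : C → C
  | Sum.inl n => toLex (Sum.inl n)
  | Sum.inr n => hi (f (OrderDual.ofDual n))

@[simp] theorem onLo_lo (f : ℕ → ℕ) (n : ℕ) : onLo f (lo n) = lo (f n) := rfl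
@[simp] theorem onLo_hi (f : ℕ → ℕ) (n : ℕ) : onLo f (hi n) = hi n := rfl
@[simp] theorem onHi_lo (f : ℕ → ℕ) (n : ℕ) : onHi f (lo n) = lo n := rfl
@[simp] theorem onHi_hi (f : ℕ → ℕ) (n : ℕ) : onHi f (hi n) = hi (f n) := rfl

theorem onLo_retr (f : ℕ → ℕ) (hm : ∀ m n, m ≤ n → f m ≤ f n) (hi' : ∀ n, f (f n) = f n) :
    IsRetraction (onLo f) := by
  refine ⟨fun x y hxy => ?_, fun x => ?_⟩
  · rcases casesC x with ⟨m, rfl⟩ | ⟨m, rfl⟩ <;> rcases casesC y with ⟨n, rfl⟩ | ⟨n, rfl⟩
    · simpa using lo_le_lo.2 (hm _ _ (lo_le_lo.1 hxy))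
    · simpa using lo_le_hi _ _
    · exact absurd hxy (not_hi_le_lo _ _)
    · simpa using hxy
  · rcases casesC x with ⟨m, rfl⟩ | ⟨m, rfl⟩
    · simp [hi']
    · simp

theorem onHi_retr (f : ℕ → ℕ) (hm : ∀ m n, m ≤ n → f m ≤ f n) (hi' : ∀ n, f (f n) = f n) :
    IsRetraction (onHi f) := by
  refine ⟨fun x y hxy => ?_, fun x => ?_⟩
  · rcases casesC x with ⟨m, rfl⟩ | ⟨m, rfl⟩ <;> rcases casesC y with ⟨n, rfl⟩ | ⟨n, rfl⟩
    · simpa using hxy
    · simpa using lo_le_hi _ _
    · exact absurd hxy (not_hi_le_lo _ _)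
    · simpa using hi_le_hi.2 (hm _ _ (hi_le_hi.1 hxy))
  · rcases casesC x with ⟨m, rfl⟩ | ⟨m, rfl⟩
    · simp
    · simp [hi']

def ev (n : ℕ) : ℕ := 2 * ((n + 1) / 2)
def od (n : ℕ) : ℕ := 2 * (n / 2) + 1

theorem ev_mono (m n : ℕ) (h : m ≤ n) : ev m ≤ ev n := by unfold ev; omega
theorem od_mono (m n : ℕ) (h : m ≤ n) : od m ≤ od n := by unfold od; omega
theorem ev_idem (n : ℕ) : ev (ev n) = ev n := by unfold ev; omega
theorem od_idem (n : ℕ) : od (od n) = od n := by unfold od; omega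
theorem ev_od_false (n : ℕ) (h1 : ev n ≤ n) (h2 : od n ≤ n) : False := by
  unfold ev at h1; unfold od at h2; omega

theorem lub_fails : ∃ r s : Retr C, (∃ t, t ∈ upperBounds {r, s}) ∧ ¬ ∃ t, IsLUB {r, s} t := by
  refine ⟨⟨onLo ev, onLo_retr _ ev_mono ev_idem⟩, ⟨onLo od, onLo_retr _ od_mono od_idem⟩, ?_, ?_⟩
  · refine ⟨⟨fun x => max x (hi 0), fun x y h => sup_le_sup_right h _, fun x => by simp⟩, ?_⟩
    rintro r (rfl | rfl) x <;> rcases casesC x with ⟨m, rfl⟩ | ⟨m, rfl⟩
    · exact (lo_le_hi _ _).trans (le_max_right _ _)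
    · exact le_max_left _ _
    · exact (lo_le_hi _ _).trans (le_max_right _ _)
    · exact le_max_left _ _
  · rintro ⟨t, hub, hleast⟩
    have h1 : ∀ x, onLo ev x ≤ t.1 x := hub (Or.inl rfl)
    have h2 : ∀ x, onLo od x ≤ t.1 x := hub (Or.inr rfl)
    rcases casesC (t.1 (lo 0)) with ⟨m, hm⟩ | ⟨u, hu⟩
    · have hfix : t.1 (lo m) = lo m := by rw [← hm]; exact t.2.2 _
      have e1 := h1 (lo m)
      have e2 := h2 (lo m)
      rw [hfix, onLo_lo, lo_le_lo] at e1 e2
      exact ev_od_false m e1 e2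
    · have key := hleast (a := ⟨fun x => max x (hi (u + 1)),
        fun x y h => sup_le_sup_right h _, fun x => by simp⟩) ?_ (lo 0)
      · change t.1 (lo 0) ≤ max (lo 0) (hi (u + 1)) at key
        rw [max_eq_right (lo_le_hi _ _), hu, hi_le_hi] at key
        omega
      · rintro r (rfl | rfl) x <;> rcases casesC x with ⟨m, rfl⟩ | ⟨m, rfl⟩
        · exact (lo_le_hi _ _).trans (le_max_right _ _)
        · exact le_max_left _ _
        · exact (lo_le_hi _ _).trans (le_max_right _ _)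
        · exact le_max_left _ _

theorem glb_fails : ∃ r s : Retr C, (∃ t, t ∈ lowerBounds {r, s}) ∧ ¬ ∃ t, IsGLB {r, s} t := by
  refine ⟨⟨onHi ev, onHi_retr _ ev_mono ev_idem⟩, ⟨onHi od, onHi_retr _ od_mono od_idem⟩, ?_, ?_⟩
  · refine ⟨⟨fun x => min x (lo 0), fun x y h => inf_le_inf_right _ h, fun x => by simp⟩, ?_⟩
    rintro r (rfl | rfl) x <;> rcases casesC x with ⟨m, rfl⟩ | ⟨m, rfl⟩
    · exact min_le_left _ _
    · exact (min_le_right _ _).trans (lo_le_hi _ _)
    · exact min_le_left _ _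
    · exact (min_le_right _ _).trans (lo_le_hi _ _)
  · rintro ⟨t, hub, hleast⟩
    have h1 : ∀ x, t.1 x ≤ onHi ev x := hub (Or.inl rfl)
    have h2 : ∀ x, t.1 x ≤ onHi od x := hub (Or.inr rfl)
    rcases casesC (t.1 (hi 0)) with ⟨u, hu⟩ | ⟨m, hm⟩
    · have key := hleast (a := ⟨fun x => min x (lo (u + 1)),
        fun x y h => inf_le_inf_right _ h, fun x => by simp⟩) ?_ (hi 0)
      · change min (hi 0) (lo (u + 1)) ≤ t.1 (hi 0) at key
        rw [min_eq_right (lo_le_hi _ _), hu, lo_le_lo] at key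
        omega
      · rintro r (rfl | rfl) x <;> rcases casesC x with ⟨m, rfl⟩ | ⟨m, rfl⟩
        · exact min_le_left _ _
        · exact (min_le_right _ _).trans (lo_le_hi _ _)
        · exact min_le_left _ _
        · exact (min_le_right _ _).trans (lo_le_hi _ _)
    · have hfix : t.1 (hi m) = hi m := by rw [← hm]; exact t.2.2 _
      have e1 := h1 (hi m)
      have e2 := h2 (hi m)
      rw [hfix, onHi_hi, hi_le_hi] at e1 e2
      exact ev_od_false m e1 e2

/-- **Q1 (negative answer).** There is a countable bounded chain `L` (in particular a bounded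
distributive lattice) with two retractions that have an upper bound but no least upper bound in
the poset of retractions of `L`, and two retractions that have a lower bound but no greatest
lower bound there. -/
theorem result : ∃ (L : Type) (_ : LinearOrder L) (_ : BoundedOrder L) (_ : Countable L),
    (∃ r s : Retr L, (∃ t, t ∈ upperBounds {r, s}) ∧ ¬ ∃ t, IsLUB {r, s} t) ∧
    (∃ r s : Retr L, (∃ t, t ∈ lowerBounds {r, s}) ∧ ¬ ∃ t, IsGLB {r, s} t) :=
  ⟨C, inferInstance, boundedC, countableC, lub_fails, glb_fails⟩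

/-- The literal negated form: not every lattice has a lattice of retractions. -/
theorem literal : ¬ ∀ (L : Type) (_ : Lattice L) (r s : Retr L),
    (∃ t, IsLUB {r, s} t) ∧ (∃ t, IsGLB {r, s} t) := by
  intro h
  obtain ⟨L, i1, _, _, ⟨r, s, _, hn⟩, _⟩ := result
  exact hn (h L inferInstance r s).1

end Pool.Agent.Results.MP_31821e_co.NotALattice
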